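import Pool.Agent.Helper11.Sq.Final

/-!
# MP_371589_nt: the statement holds for almost all `n`

The set of all natural numbers `n`, not of the form `4 ^ k (8 l + 7)`, which are not of the form
`x² + y² + z²` with `x + 2 y + 3 z` a square or twice a square, has natural density zero.
-/

set_option autoImplicit false

namespace Pool.Agent.Results.MP_371589_nt.DensityOne

open Filter Topology

/-- Almost all natural numbers `n` which are sums of three squares are of the form
`x² + y² + z²` with `x + 2 y + 3 z` a square or twice a square: the number of exceptions below `N`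
divided by `N` tends to zero. -/
theorem result :
    Tendsto (fun N : ℕ =>
      (({n : ℕ | n < N ∧ (¬ ∃ k l : ℕ, n = 4 ^ k * (8 * l + 7)) ∧
        ¬ ∃ x y z : ℤ, (n : ℤ) = x ^ 2 + y ^ 2 + z ^ 2 ∧
          ∃ m : ℤ, (x + 2 * y + 3 * z = m ^ 2 ∨ x + 2 * y + 3 * z = 2 * m ^ 2)}.ncard : ℕ) : ℝ) / N)
      atTop (𝓝 0) := by
  classical
  refine Helper11.Sq.density_one.congr fun N => ?_
  congr 2
  unfold Helper11.Sq.cnt
  rw [← Set.ncard_coe_finset]
  congr 1
  ext n
  simp only [Finset.coe_filter, Finset.mem_range, Set.mem_ofPred_eq, Helper11.Sq.Exc,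
    Helper11.Sq.E, Helper11.Sq.Good]

end Pool.Agent.Results.MP_371589_nt.DensityOne
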